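import Mathlib

/-!
# The two-dimensional Borsuk–Ulam theorem
-/

set_option autoImplicit false

namespace Pool.Agent.Helper24.TB

open Matrix

/-- Every continuous function without zeros on the plane has a continuous logarithm. -/
theorem exists_log (f : ℂ → ℂ) (hf : Continuous f) (h0 : ∀ z, f z ≠ 0) :
    ∃ g : ℂ → ℂ, Continuous g ∧ ∀ z, Complex.exp (g z) = f z := by
  obtain ⟨G, ⟨_, hG⟩, _⟩ := IsCoveringMapOn.existsUnique_continuousMap_lifts
    Complex.isCoveringMapOn_exp (⟨f, hf⟩ : C(ℂ, ℂ)) (a₀ := 0) (e₀ := Complex.log (f 0))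
    (Complex.exp_log (h0 0)) (fun a => h0 a)
  exact ⟨G, G.continuous, fun z => congrFun hG z⟩

/-- Borsuk–Ulam: an odd continuous function on the space has a zero on the sphere. -/
theorem borsukUlam (F : (Fin 3 → ℝ) → ℂ) (hF : Continuous F) (hodd : ∀ v, F (-v) = -F v) :
    ∃ v : Fin 3 → ℝ, v ⬝ᵥ v = 1 ∧ F v = 0 := by
  by_contra hcon
  push Not at hcon
  -- the hemisphere
  let H : ℂ → (Fin 3 → ℝ) := fun z => ![z.re, z.im, Real.sqrt (max 0 (1 - ‖z‖ ^ 2))]
  have hH : Continuous H := by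
    refine continuous_pi fun i => ?_
    fin_cases i
    · exact Complex.continuous_re
    · exact Complex.continuous_im
    · exact (continuous_const.max (continuous_const.sub (continuous_norm.pow 2))).sqrt
  let N : ℂ → ℝ := fun z => Real.sqrt (H z ⬝ᵥ H z)
  have hdot : ∀ z, H z ⬝ᵥ H z = ‖z‖ ^ 2 + max 0 (1 - ‖z‖ ^ 2) := by
    intro z
    simp only [H, dotProduct, Fin.sum_univ_three]
    have h1 : Real.sqrt (max 0 (1 - ‖z‖ ^ 2)) * Real.sqrt (max 0 (1 - ‖z‖ ^ 2)) =
        max 0 (1 - ‖z‖ ^ 2) := Real.mul_self_sqrt (le_max_left _ _)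
    have h2 : ‖z‖ ^ 2 = z.re * z.re + z.im * z.im := by
      rw [← Complex.normSq_apply, Complex.normSq_eq_norm_sq]
    simp only [Matrix.cons_val_zero, Matrix.cons_val_one, Matrix.cons_val]
    rw [h1]
    linarith
  have hpos : ∀ z, 1 ≤ H z ⬝ᵥ H z := by
    intro z
    rw [hdot]
    have := le_max_right 0 (1 - ‖z‖ ^ 2)
    linarith
  have hNc : Continuous N := by
    refine Continuous.sqrt ?_
    exact hH.dotProduct hH
  have hN0 : ∀ z, N z ≠ 0 := fun z => (Real.sqrt_pos.2 (by linarith [hpos z])).ne'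
  let S : ℂ → (Fin 3 → ℝ) := fun z => (N z)⁻¹ • H z
  have hS : Continuous S := (hNc.inv₀ hN0).smul hH
  have hS1 : ∀ z, S z ⬝ᵥ S z = 1 := by
    intro z
    simp only [S, smul_dotProduct, dotProduct_smul, smul_eq_mul]
    have : N z * N z = H z ⬝ᵥ H z := Real.mul_self_sqrt (by linarith [hpos z])
    have h0 := hN0 z
    rw [← this]
    field_simp
  obtain ⟨g, hg, hge⟩ := exists_log (fun z => F (S z)) (hF.comp hS) fun z => hcon _ (hS1 z)
  -- on the unit circle
  have hSneg : ∀ z : ℂ, ‖z‖ = 1 → S (-z) = -S z := by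
    intro z hz
    have h1 : H z = ![z.re, z.im, 0] := by
      simp only [H, hz]
      simp
    have h2 : H (-z) = -H z := by
      have h3 : H (-z) = ![(-z).re, (-z).im, 0] := by
        simp only [H, norm_neg, hz]
        simp
      rw [h3, h1]
      ext i
      fin_cases i <;> simp
    have h4 : N (-z) = N z := by
      simp only [N, h2, neg_dotProduct_neg]
    simp only [S, h2, h4, smul_neg]
  have hkey : ∀ z : ℂ, ‖z‖ = 1 → Complex.exp (g (-z) - g z) = -1 := by
    intro z hz
    rw [Complex.exp_sub, hge, hge, hSneg z hz, hodd, neg_div, div_self (hcon _ (hS1 z))]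
  let e : ℝ → ℂ := fun t => Complex.exp (t * Complex.I)
  have he : Continuous e := by
    simp only [e]
    fun_prop
  have he1 : ∀ t, ‖e t‖ = 1 := fun t => Complex.norm_exp_ofReal_mul_I t
  let φ : ℝ → ℝ := fun t => (g (-e t) - g (e t)).im
  have hφ : Continuous φ :=
    Complex.continuous_im.comp ((hg.comp he.neg).sub (hg.comp he))
  have he0 : e 0 = 1 := by simp [e]
  have heπ : e Real.pi = -1 := by simp [e, Complex.exp_pi_mul_I]
  have hφπ : φ Real.pi = -φ 0 := by
    simp only [φ, he0, heπ, neg_neg, Complex.sub_im]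
    ring
  obtain ⟨t, ht⟩ : ∃ t, φ t = 0 := by
    rcases le_total 0 (φ 0) with h | h
    · have := intermediate_value_Icc' Real.pi_pos.le hφ.continuousOn
        (show (0 : ℝ) ∈ Set.Icc (φ Real.pi) (φ 0) from ⟨by rw [hφπ]; linarith, h⟩)
      obtain ⟨t, _, ht⟩ := this
      exact ⟨t, ht⟩
    · have := intermediate_value_Icc Real.pi_pos.le hφ.continuousOn
        (show (0 : ℝ) ∈ Set.Icc (φ 0) (φ Real.pi) from ⟨h, by rw [hφπ]; linarith⟩)
      obtain ⟨t, _, ht⟩ := this
      exact ⟨t, ht⟩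
  have h1 := hkey (e t) (he1 t)
  have h2 : (Complex.exp (g (-e t) - g (e t))).re = Real.exp (g (-e t) - g (e t)).re := by
    rw [Complex.exp_re]
    have : (g (-e t) - g (e t)).im = 0 := ht
    rw [this, Real.cos_zero, mul_one]
  rw [h1] at h2
  have := Real.exp_pos (g (-e t) - g (e t)).re
  simp only [Complex.neg_re, Complex.one_re] at h2
  linarith

end Pool.Agent.Helper24.TB
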