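import Pool.Agent.Helper24.TB.Sph

/-!
# Planar colourings by half-turns are Fox colourings
-/

set_option autoImplicit false

namespace Pool.Agent.Helper24.TB

open Matrix Pool.Agent.Helper20.BandSum

/-- Finitely generated abelian groups are residually finite. -/
theorem exists_zmod {M : Type} [AddCommGroup M] (hM : AddGroup.FG M) (m : M) (hm : m ≠ 0) :
    ∃ (n : ℕ) (_ : n ≠ 0) (f : M →+ ZMod n), f m ≠ 0 := by
  classical
  obtain ⟨r, ι, _, p, hp, e, ⟨E⟩⟩ := AddCommGroup.equiv_free_prod_directSum_zmod M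
  have hEm : E m ≠ 0 := fun h => hm (E.injective (h.trans (map_zero E).symm))
  by_cases h1 : (E m).1 = 0
  · have h2 : (E m).2 ≠ 0 := fun h => hEm (Prod.ext h1 h)
    obtain ⟨i, hi⟩ : ∃ i, (E m).2 i ≠ 0 := by
      by_contra hcon
      push Not at hcon
      exact h2 (DFinsupp.ext hcon)
    refine ⟨p i ^ e i, pow_ne_zero _ (hp i).ne_zero,
      (DFinsupp.evalAddMonoidHom i).comp ((AddMonoidHom.snd _ _).comp E.toAddMonoidHom), hi⟩
  · obtain ⟨i, hi⟩ : ∃ i, (E m).1 i ≠ 0 := by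
      by_contra hcon
      push Not at hcon
      exact h1 (Finsupp.ext hcon)
    set k : ℤ := (E m).1 i with hk
    refine ⟨k.natAbs + 1, Nat.succ_ne_zero _, (Int.castAddHom (ZMod (k.natAbs + 1))).comp
      ((Finsupp.applyAddHom i).comp ((AddMonoidHom.fst _ _).comp E.toAddMonoidHom)), ?_⟩
    change ((k : ℤ) : ZMod (k.natAbs + 1)) ≠ 0
    rw [Ne, ZMod.intCast_zmod_eq_zero_iff_dvd]
    intro hd
    have h3 := Int.natAbs_dvd_natAbs.2 hd
    have h4 : (((k.natAbs + 1 : ℕ) : ℤ)).natAbs = k.natAbs + 1 := Int.natAbs_natCast _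
    rw [h4] at h3
    have := Nat.le_of_dvd (Int.natAbs_pos.2 hi) h3
    omega

theorem isCol_change {Q : Type*} {op : Q → Q → Q} {D : Diagram} {x y : ℕ → Q}
    (hx : IsCol op D x) (h : ∀ j < D.strands, y j = x j) : IsCol op D y := by
  rw [isCol_iff] at hx ⊢
  intro j hj
  rw [actWord_congr D.strands D.word D.valid y x h j hj, hx j hj, h j hj]

theorem fox_of_group {A : Type} [AddCommGroup A] {D : Diagram} {y : ℕ → A}
    (hy : IsCol tak D y) {j : ℕ} (hj : j < D.strands) (hne : y j ≠ y 0) :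
    ∃ n, n ≠ 0 ∧ FoxColourable n D := by
  classical
  obtain ⟨y', hy'⟩ : ∃ y' : ℕ → A, y' = fun k => if k < D.strands then y k else 0 := ⟨_, rfl⟩
  have hlt : ∀ k < D.strands, y' k = y k := by
    intro k hk
    rw [hy']
    simp only
    rw [if_pos hk]
  have hcol := isCol_change hy hlt
  let M : AddSubgroup A := AddSubgroup.closure ((Finset.range D.strands).image y : Finset A)
  have hmem : ∀ k, y' k ∈ M := by
    intro k
    by_cases hk : k < D.strands
    · rw [hlt k hk]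
      apply AddSubgroup.subset_closure
      rw [Finset.coe_image]
      exact ⟨k, by simpa using hk, rfl⟩
    · rw [hy']
      simp only
      rw [if_neg hk]
      exact M.zero_mem
  have hFG : AddGroup.FG M := (AddGroup.fg_iff_addSubgroup_fg M).2 ⟨_, rfl⟩
  have hcolM : IsCol tak D (fun k => (⟨y' k, hmem k⟩ : M)) := by
    change actWord tak D.word _ = _
    funext k
    apply Subtype.ext
    rw [show ((actWord tak D.word (fun k => (⟨y' k, hmem k⟩ : M)) k : M) : A) =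
      M.subtype (actWord tak D.word (fun k => (⟨y' k, hmem k⟩ : M)) k) from rfl,
      actWord_hom (op := tak) (op' := tak) M.subtype (fun a b => by simp [tak])]
    exact congrFun hcol k
  obtain ⟨n, hn, f, hf⟩ := exists_zmod hFG (⟨y' j, hmem j⟩ - ⟨y' 0, hmem 0⟩) (by
    intro h
    have h1 := congrArg Subtype.val h
    simp only [AddSubgroup.coe_sub, ZeroMemClass.coe_zero, sub_eq_zero] at h1
    rw [hlt j hj, hlt 0 D.pos] at h1
    exact hne h1)
  refine ⟨n, hn, _, isCol_tak_map f hcolM, j, hj, ?_⟩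
  rw [map_sub, sub_ne_zero] at hf
  exact hf

/-- Unit vectors orthogonal to `m`. -/
abbrev PP (m : V3) : Type := {v : V3 // v ⬝ᵥ v = 1 ∧ m ⬝ᵥ v = 0}

/-- The half-turn operation on the unit vectors orthogonal to `m`. -/
def pop (m : V3) (a b : PP m) : PP m :=
  ⟨rul a.1 b.1, by rw [rul_dot a.2.1]; exact b.2.1, by
    simp only [rul, dotProduct_sub, dotProduct_smul, smul_eq_mul, a.2.2, b.2.2]
    ring⟩

/-- The cross product. -/
def crs (m u : V3) : V3 := ![m 1 * u 2 - m 2 * u 1, m 2 * u 0 - m 0 * u 2, m 0 * u 1 - m 1 * u 0]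

theorem gram (a b m u : V3) (hu : u ⬝ᵥ u = 1) (hmu : m ⬝ᵥ u = 0) (ha : m ⬝ᵥ a = 0)
    (hb : m ⬝ᵥ b = 0) : (a ⬝ᵥ (crs m u)) * (b ⬝ᵥ (crs m u)) =
      (m ⬝ᵥ m) * (a ⬝ᵥ b - (a ⬝ᵥ u) * (b ⬝ᵥ u)) := by
  have key : (a ⬝ᵥ (crs m u)) * (b ⬝ᵥ (crs m u)) =
      (a ⬝ᵥ b) * ((m ⬝ᵥ m) * (u ⬝ᵥ u) - (m ⬝ᵥ u) * (m ⬝ᵥ u)) -
      (m ⬝ᵥ a) * ((m ⬝ᵥ b) * (u ⬝ᵥ u) - (m ⬝ᵥ u) * (b ⬝ᵥ u)) +
      (a ⬝ᵥ u) * ((m ⬝ᵥ b) * (m ⬝ᵥ u) - (m ⬝ᵥ m) * (b ⬝ᵥ u)) := by
    simp only [crs, dotProduct, Fin.sum_univ_three, Matrix.cons_val_zero, Matrix.cons_val_one,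
      Matrix.cons_val]
    ring
  rw [key, hu, hmu, ha, hb]
  ring

/-- Planar colourings by half-turns. -/
theorem fox_of_planar {D : Diagram} {x : ℕ → V3} (hx : ∀ j, x j ⬝ᵥ x j = 1)
    (h : IsCol rul D x) {m : V3} (hm : m ≠ 0) (hpl : ∀ j < D.strands, m ⬝ᵥ x j = 0) {j : ℕ}
    (hj : j < D.strands) (hne : x j ≠ x 0) : ∃ n, n ≠ 0 ∧ FoxColourable n D := by
  obtain ⟨y, hy⟩ : ∃ y : ℕ → V3, y = fun k => if k < D.strands then x k else x 0 := ⟨_, rfl⟩
  have hlt : ∀ k < D.strands, y k = x k := by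
    intro k hk
    rw [hy]
    simp only
    rw [if_pos hk]
  have hcol : IsCol rul D y := isCol_change h hlt
  have hyP : ∀ k, y k ⬝ᵥ y k = 1 ∧ m ⬝ᵥ y k = 0 := by
    intro k
    by_cases hk : k < D.strands
    · rw [hlt k hk]
      exact ⟨hx k, hpl k hk⟩
    · have h0 : y k = x 0 := by
        rw [hy]
        simp only
        rw [if_neg hk]
      rw [h0]
      exact ⟨hx 0, hpl 0 D.pos⟩
  have hcolP : IsCol (pop m) D (fun k => (⟨y k, hyP k⟩ : PP m)) := by
    have h1 := actWord_map (op := pop m) (op' := rul) (fun a : PP m => a.1) (fun _ _ => rfl)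
      D.word (fun k => (⟨y k, hyP k⟩ : PP m))
    have h2 : actWord rul D.word y = y := hcol
    rw [h2] at h1
    change actWord (pop m) D.word _ = _
    funext k
    exact Subtype.ext (congrFun h1 k).symm
  -- coordinates in the plane
  set u : V3 := x 0 with hu
  have huu : u ⬝ᵥ u = 1 := hx 0
  have hmu : m ⬝ᵥ u = 0 := hpl 0 D.pos
  have hmm : 0 < m ⬝ᵥ m := by
    have h1 : m ⬝ᵥ m ≠ 0 := fun h => hm (dotProduct_self_eq_zero.1 h)
    have h2 : 0 ≤ m ⬝ᵥ m := by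
      simp only [dotProduct]
      exact Finset.sum_nonneg fun i _ => mul_self_nonneg _
    exact lt_of_le_of_ne h2 (Ne.symm h1)
  set r : ℝ := Real.sqrt (m ⬝ᵥ m) with hr
  have hr2 : r * r = m ⬝ᵥ m := Real.mul_self_sqrt hmm.le
  have hr0 : r ≠ 0 := (Real.sqrt_pos.2 hmm).ne'
  let p : V3 → ℝ := fun w => w ⬝ᵥ u
  let q : V3 → ℝ := fun w => r⁻¹ * (w ⬝ᵥ (crs m u))
  have hpq : ∀ a b : PP m, a.1 ⬝ᵥ b.1 = p a.1 * p b.1 + q a.1 * q b.1 := by
    intro a b
    have h1 := gram a.1 b.1 m u huu hmu a.2.2 b.2.2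
    have h2 : q a.1 * q b.1 = a.1 ⬝ᵥ b.1 - (a.1 ⬝ᵥ u) * (b.1 ⬝ᵥ u) := by
      simp only [q]
      have h3 : r⁻¹ * (a.1 ⬝ᵥ (crs m u)) * (r⁻¹ * (b.1 ⬝ᵥ (crs m u))) =
          (r * r)⁻¹ * ((a.1 ⬝ᵥ (crs m u)) * (b.1 ⬝ᵥ (crs m u))) := by
        rw [mul_inv]
        ring
      rw [h3, h1, hr2, ← mul_assoc, inv_mul_cancel₀ hmm.ne', one_mul]
    rw [h2]
    simp only [p]
    ring
  have hunit : ∀ a : PP m, p a.1 * p a.1 + q a.1 * q a.1 = 1 := by
    intro a
    rw [← hpq a a]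
    exact a.2.1
  let z : PP m → ℂ := fun a => ⟨p a.1, q a.1⟩
  have hz0 : ∀ a, z a ≠ 0 := by
    intro a h0
    have h1 : p a.1 = 0 := congrArg Complex.re h0
    have h2 : q a.1 = 0 := congrArg Complex.im h0
    have h3 := hunit a
    rw [h1, h2] at h3
    norm_num at h3
  have hp : ∀ a b : PP m, p (rul a.1 b.1) = 2 * (a.1 ⬝ᵥ b.1) * p a.1 - p b.1 := by
    intro a b
    simp only [p, rul, sub_dotProduct, smul_dotProduct, smul_eq_mul]
  have hq : ∀ a b : PP m, q (rul a.1 b.1) = 2 * (a.1 ⬝ᵥ b.1) * q a.1 - q b.1 := by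
    intro a b
    simp only [q, rul, sub_dotProduct, smul_dotProduct, smul_eq_mul]
    ring
  have hzmul : ∀ a b, z (pop m a b) * z b = z a * z a := by
    intro a b
    have ha := hunit a
    have hb := hunit b
    apply Complex.ext
    · simp only [z, Complex.mul_re, pop]
      rw [hp, hq, hpq]
      linear_combination (2 * p b.1 ^ 2 - 1 - 2 * (p b.1 * p b.1 + q b.1 * q b.1 - 1)) * ha +
        (2 * p a.1 ^ 2 - 1) * hb
    · simp only [z, Complex.mul_im, pop]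
      rw [hp, hq, hpq]
      linear_combination (2 * p b.1 * q b.1) * ha + (2 * p a.1 * q a.1) * hb
  let g : PP m → Additive ℂˣ := fun a => Additive.ofMul (Units.mk0 (z a) (hz0 a))
  have hg : ∀ a b, g (pop m a b) = tak (g a) (g b) := by
    intro a b
    simp only [tak]
    rw [eq_sub_iff_add_eq]
    apply Additive.toMul.injective
    apply Units.ext
    exact hzmul a b
  refine fox_of_group (isCol_map (op := pop m) (op' := tak) g hg hcolP) hj ?_
  intro heq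
  have h1 : z ⟨y j, hyP j⟩ = z ⟨y 0, hyP 0⟩ :=
    congrArg (fun a : Additive ℂˣ => ((Additive.toMul a : ℂˣ) : ℂ)) heq
  have h2 : p (y j) = p (y 0) := congrArg Complex.re h1
  rw [hlt j hj, hlt 0 D.pos] at h2
  have h3 : x j ⬝ᵥ u = 1 := by
    change p (x j) = 1
    rw [h2]
    exact huu
  apply hne
  have h4 : (x j - u) ⬝ᵥ (x j - u) = 0 := by
    simp only [sub_dotProduct, dotProduct_sub, hx j, huu, h3, dotProduct_comm u (x j)]
    ring
  exact sub_eq_zero.1 (dotProduct_self_eq_zero.1 h4)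

end Pool.Agent.Helper24.TB
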