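import Pool.Agent.Helper24.TB.Qt
import Pool.Agent.Helper24.TB.Pl

/-!
# Band sums whose kei is generated by three elements
-/

set_option autoImplicit false

namespace Pool.Agent.Helper24.TB

open Matrix Pool.Agent.Helper20.BandSum

/-- The diagram has a nonconstant colouring by unit vectors of the space, with the rule that the
two under strands at a crossing are exchanged by the half-turn about the over strand. -/
def SphereColourable (D : Diagram) : Prop :=
  ∃ x : ℕ → V3, (∀ j, x j ⬝ᵥ x j = 1) ∧ IsCol rul D x ∧ ∃ j < D.strands, x j ≠ x 0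

/-- The colourings of the diagram by keis are determined by the values of three terms. -/
def ThreeGenerated (D : Diagram) : Prop :=
  ∃ s : Fin 3 → Tm, ∀ (Q : Type) (op : Q → Q → Q), IsKei op → ∀ c c' : ℕ → Q,
    IsCol op D c → IsCol op D c' → (∀ i, eval op c (s i) = eval op c' (s i)) →
    ∀ j < D.strands, c j = c' j

/-- A closed braid with at most three strands. -/
theorem threeGenerated_of_strands {D : Diagram} (h : D.strands ≤ 3) : ThreeGenerated D := by
  refine ⟨fun i => Tm.var i, fun Q op _ c c' _ _ hc j hj => ?_⟩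
  exact hc ⟨j, by omega⟩

/-- The property of the terms of the band sum. -/
def GoodC (K₁ K₂ : Diagram) (b₀ : ℕ) (t : Tm) (S : Fin 3 → Tm) : Prop :=
  ∀ (Q : Type) (op : Q → Q → Q), IsKei op → ∀ c c' : ℕ → Q,
    IsCol op (split K₁ K₂) c → IsCol op (split K₁ K₂) c' →
    c b₀ = eval op c t → c' b₀ = eval op c' t →
    (∀ i, eval op c (S i) = eval op c' (S i)) → ∀ j < (split K₁ K₂).strands, c j = c' j

theorem exists_goodC {K K₁ K₂ : Diagram} (hb : IsBandSum K K₁ K₂)
    (hT : ∃ D, SameLink K D ∧ ThreeGenerated D) :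
    ∃ (b₀ : ℕ) (t : Tm) (S : Fin 3 → Tm), b₀ < K₁.strands ∧ ¬ t.base < K₁.strands ∧
      GoodC K₁ K₂ b₀ t S := by
  obtain ⟨D, hKD, s, hs⟩ := hT
  obtain ⟨τ, hτ⟩ := (TrI.of_sameLink hKD).1
  obtain ⟨t₁, t₂, σ, h⟩ := exists_band_terms hb
  have hne := band_bases hb h
  -- the combined property
  have key : ∀ (Q : Type) (op : Q → Q → Q), IsKei op → ∀ c c' : ℕ → Q,
      IsCol op (split K₁ K₂) c → IsCol op (split K₁ K₂) c' →
      eval op c t₁ = eval op c t₂ → eval op c' t₁ = eval op c' t₂ →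
      (∀ i, eval op c (((s i).subst τ).subst σ) = eval op c' (((s i).subst τ).subst σ)) →
      ∀ j < (split K₁ K₂).strands, c j = c' j := by
    intro Q op hop c c' hc hc' he he' hS
    obtain ⟨a1, a2⟩ := hτ Q op hop
    obtain ⟨b1, b2⟩ := h Q op hop
    refine b2 c c' hc hc' he he' ?_
    refine a2 _ _ (b1 c hc he) (b1 c' hc' he') ?_
    refine hs Q op hop _ _ (a1 _ (b1 c hc he)) (a1 _ (b1 c' hc' he')) fun i => ?_
    have := hS i
    rw [eval_subst, eval_subst, eval_subst, eval_subst] at this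
    exact this
  by_cases h1 : t₁.base < K₁.strands
  · have h2 : ¬ t₂.base < K₁.strands := fun h2 => hne ⟨fun _ => h2, fun _ => h1⟩
    obtain ⟨t, ht, h'⟩ := normalise t₁ t₂
    refine ⟨t₁.base, t, fun i => ((s i).subst τ).subst σ, h1, by rwa [ht], ?_⟩
    intro Q op hop c c' hc hc' he he' hS
    exact key Q op hop c c' hc hc' (h' Q op hop c he) (h' Q op hop c' he') hS
  · have h2 : t₂.base < K₁.strands := by
      by_contra h2
      exact hne ⟨fun h => absurd h h1, fun h => absurd h h2⟩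
    obtain ⟨t, ht, h'⟩ := normalise t₂ t₁
    refine ⟨t₂.base, t, fun i => ((s i).subst τ).subst σ, h2, by rwa [ht], ?_⟩
    intro Q op hop c c' hc hc' he he' hS
    exact key Q op hop c c' hc hc' (h' Q op hop c he).symm (h' Q op hop c' he').symm hS

/-- The colours are not in a plane. -/
def Spatial (D : Diagram) (x : ℕ → V3) : Prop :=
  ∀ m : V3, (∀ j < D.strands, m ⬝ᵥ x j = 0) → m = 0

theorem eval_rul_hom (g : V3 → V3) (hg : ∀ v w, v ⬝ᵥ v = 1 → g (rul v w) = rul (g v) (g w))
    (x : ℕ → V3) (hx : ∀ j, x j ⬝ᵥ x j = 1) (t : Tm) :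
    eval rul (fun j => g (x j)) t = g (eval rul x t) := by
  induction t with
  | var j => rfl
  | op s t ihs iht =>
    simp only [eval]
    rw [hg _ _ (eval_rul_unit x hx s), ihs, iht]

theorem core {K₁ K₂ : Diagram} {b₀ : ℕ} {t : Tm} {S : Fin 3 → Tm} (hb₀ : b₀ < K₁.strands)
    (ht : ¬ t.base < K₁.strands) (hC : GoodC K₁ K₂ b₀ t S) {x₁ x₂ : ℕ → V3}
    (h₁ : ∀ j, x₁ j ⬝ᵥ x₁ j = 1) (h₂ : ∀ j, x₂ j ⬝ᵥ x₂ j = 1) (hc₁ : IsCol rul K₁ x₁)
    (hc₂ : IsCol rul K₂ x₂) {j₁ j₂ : ℕ} (hj₁ : j₁ < K₁.strands) (hj₂ : j₂ < K₂.strands)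
    (hn₁ : (x₁ 0 ⬝ᵥ x₁ j₁) ^ 2 ≠ 1) (hn₂ : (x₂ 0 ⬝ᵥ x₂ j₂) ^ 2 ≠ 1)
    (hsp : Spatial K₁ x₁ ∨ Spatial K₂ x₂) : False := by
  have hpos₁ := K₁.pos
  have hpos₂ := K₂.pos
  obtain ⟨x, hx⟩ : ∃ x : ℕ → V3, x = fun j => if j < K₁.strands then x₁ j
    else x₂ (j - K₁.strands) := ⟨_, rfl⟩
  have hxu : ∀ j, x j ⬝ᵥ x j = 1 := by
    intro j
    rw [hx]
    simp only
    split_ifs
    · exact h₁ _
    · exact h₂ _
  obtain ⟨n, hn, heq⟩ := exists_turn K₁.strands x hxu b₀ t hb₀ ht
  obtain ⟨y, hy⟩ : ∃ y : ℕ → V3, y = turn K₁.strands x n := ⟨_, rfl⟩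
  rw [← hy] at heq
  have hyu : ∀ j, y j ⬝ᵥ y j = 1 := by
    rw [hy]
    exact turn_unit _ _ hxu hn
  have hylt : ∀ j < K₁.strands, y j = x₁ j := by
    intro j hj
    rw [hy, turn, if_pos hj, hx]
    simp only
    rw [if_pos hj]
  have hyge : ∀ j, y (j + K₁.strands) = rul n (x₂ j) := by
    intro j
    rw [hy, turn, if_neg (by omega), hx]
    simp only
    rw [if_neg (by omega), Nat.add_sub_cancel]
  -- the rotated colouring of the second knot
  obtain ⟨z, hz⟩ : ∃ z : ℕ → V3, z = fun j => rul n (x₂ j) := ⟨_, rfl⟩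
  have hzu : ∀ j, z j ⬝ᵥ z j = 1 := by
    intro j
    rw [hz]
    simp only
    rw [rul_dot hn, h₂]
  have hcz : IsCol rul K₂ z := by
    rw [hz]
    exact isCol_iso h₂ hc₂ (rul n) fun v w _ => rul_dist hn w
  have hysplit : ∀ j, y j = if j < K₁.strands then x₁ j else z (j - K₁.strands) := by
    intro j
    split_ifs with hj
    · exact hylt j hj
    · have := hyge (j - K₁.strands)
      rw [Nat.sub_add_cancel (by omega)] at this
      rw [this, hz]
  have hcol : ∀ u v : V3, IsCol eop (split K₁ K₂) (fun j => (⟨(y j,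
      (if j < K₁.strands then u else v) ⬝ᵥ y j), hyu j⟩ : E3)) := by
    intro u v
    have h := isCol_split (isCol_ext h₁ hc₁ u) (isCol_ext hzu hcz v)
    convert h using 1
    funext j
    by_cases hj : j < K₁.strands
    · rw [show (if j < K₁.strands then (⟨(x₁ j, u ⬝ᵥ x₁ j), h₁ j⟩ : E3)
        else ⟨(z (j - K₁.strands), v ⬝ᵥ z (j - K₁.strands)), hzu _⟩) =
          ⟨(x₁ j, u ⬝ᵥ x₁ j), h₁ j⟩ from if_pos hj]
      apply E3.ext
      · exact hylt j hj
      · change (if j < K₁.strands then u else v) ⬝ᵥ y j = u ⬝ᵥ x₁ j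
        rw [if_pos hj, hylt j hj]
    · rw [show (if j < K₁.strands then (⟨(x₁ j, u ⬝ᵥ x₁ j), h₁ j⟩ : E3)
        else ⟨(z (j - K₁.strands), v ⬝ᵥ z (j - K₁.strands)), hzu _⟩) =
          ⟨(z (j - K₁.strands), v ⬝ᵥ z (j - K₁.strands)), hzu _⟩ from if_neg hj]
      have h' := hysplit j
      rw [if_neg hj] at h'
      apply E3.ext
      · exact h'
      · change (if j < K₁.strands then u else v) ⬝ᵥ y j = v ⬝ᵥ z (j - K₁.strands)
        rw [if_neg hj, h']
  -- the linear form
  let bb : V3 → V3 → ℕ → ℝ := fun u v j => (if j < K₁.strands then u else v) ⬝ᵥ y j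
  let cc : V3 → V3 → ℕ → E3 := fun u v j => ⟨(y j, bb u v j), hyu j⟩
  have hccol : ∀ u v, IsCol eop (split K₁ K₂) (cc u v) := hcol
  have hev : ∀ u v s, (eval eop (cc u v) s).1.1 = eval rul y s ∧
      (eval eop (cc u v) s).1.2 = lin y (bb u v) s := fun u v s =>
    eval_eop y (bb u v) (cc u v) (fun _ => rfl) (fun _ => rfl) s
  let ψ : V3 → ℝ := fun u => lin y (bb u 0) t - u ⬝ᵥ y b₀
  have hbb_add : ∀ u u', bb (u + u') 0 = fun j => bb u 0 j + bb u' 0 j := by
    intro u u'
    funext j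
    simp only [bb]
    split_ifs
    · rw [add_dotProduct]
    · simp
  have hbb_smul : ∀ (r : ℝ) u, bb (r • u) 0 = fun j => r * bb u 0 j := by
    intro r u
    funext j
    simp only [bb]
    split_ifs
    · rw [smul_dotProduct, smul_eq_mul]
    · simp
  have hψadd : ∀ v w, ψ (v + w) = ψ v + ψ w := by
    intro v w
    simp only [ψ]
    rw [hbb_add, lin_add, add_dotProduct]
    ring
  have hψsmul : ∀ (r : ℝ) v, ψ (r • v) = r * ψ v := by
    intro r v
    simp only [ψ]
    rw [hbb_smul, lin_smul, smul_dotProduct, smul_eq_mul]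
    ring
  have hψeq : ∀ u, ψ u = 0 → cc u 0 b₀ = eval eop (cc u 0) t := by
    intro u hu
    obtain ⟨e1, e2⟩ := hev u 0 t
    apply E3.ext
    · rw [e1]
      exact heq
    · rw [e2]
      change (if b₀ < K₁.strands then u else 0) ⬝ᵥ y b₀ = _
      rw [if_pos hb₀]
      exact (sub_eq_zero.1 hu).symm
  have hdiag : ∀ u, bb u u = fun j => u ⬝ᵥ y j := by
    intro u
    funext j
    simp only [bb, ite_self]
  have hdeq : ∀ u, cc u u b₀ = eval eop (cc u u) t := by
    intro u
    obtain ⟨e1, e2⟩ := hev u u t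
    apply E3.ext
    · rw [e1]
      exact heq
    · rw [e2, hdiag, lin_dot, ← heq]
      change bb u u b₀ = _
      rw [hdiag]
  have hz0 : ∀ j, rul n (z j) = x₂ j := by
    intro j
    rw [hz]
    exact rul_rul hn _
  -- orthogonality transfers
  have hspz : Spatial K₂ x₂ → Spatial K₂ z := by
    intro h m hm
    have h1 : rul n m = 0 := by
      apply h
      intro j hj
      rw [rul_dot_left]
      have := hm j hj
      rw [hz] at this
      exact this
    rw [← rul_rul hn m, h1]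
    simp [rul]
  -- the matrix of the three values
  let M : Matrix (Fin 3) (Fin 3) ℝ := fun i => eval rul y (S i)
  by_cases hdet : M.det = 0
  · obtain ⟨v, hv0, hv⟩ := Matrix.exists_mulVec_eq_zero_iff.2 hdet
    have hvv : v ⬝ᵥ v ≠ 0 := fun h => hv0 (dotProduct_self_eq_zero.1 h)
    let g : V3 → V3 := fun w => w - (2 * (w ⬝ᵥ v) / (v ⬝ᵥ v)) • v
    have hgd : ∀ a b, g a ⬝ᵥ g b = a ⬝ᵥ b := by
      intro a b
      simp only [g, sub_dotProduct, dotProduct_sub, smul_dotProduct, dotProduct_smul, smul_eq_mul,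
        dotProduct_comm v b]
      field_simp
      ring
    have hg : ∀ a b, a ⬝ᵥ a = 1 → g (rul a b) = rul (g a) (g b) := by
      intro a b _
      rw [show rul (g a) (g b) = (2 * (g a ⬝ᵥ g b)) • g a - g b from rfl, hgd]
      simp only [g, rul, sub_dotProduct, smul_dotProduct, smul_eq_mul]
      module
    have hgy : ∀ j, g (y j) ⬝ᵥ g (y j) = 1 := fun j => by rw [hgd, hyu]
    have hcg : IsCol eop (split K₁ K₂) (fun j => (⟨(g (y j), 0), hgy j⟩ : E3)) := by
      have h := isCol_map (op := eop) (op' := eop)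
        (fun a : E3 => (⟨(g a.1.1, 0), by rw [hgd]; exact a.2⟩ : E3)) (fun a b => by
          apply E3.ext
          · exact hg _ _ a.2
          · rw [eop_snd]
            simp) (hccol 0 0)
      exact h
    have hlin0 : ∀ (w : ℕ → V3) s, lin w (fun _ => 0) s = 0 := by
      intro w s
      have := lin_smul w 0 (fun _ => 0) s
      simpa using this
    have hbb0 : bb 0 0 = fun _ => 0 := by
      funext j
      simp [bb]
    have hevg : ∀ s, (eval eop (fun j => (⟨(g (y j), 0), hgy j⟩ : E3)) s).1.1 =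
        g (eval rul y s) ∧ (eval eop (fun j => (⟨(g (y j), 0), hgy j⟩ : E3)) s).1.2 = 0 := by
      intro s
      obtain ⟨e1, e2⟩ := eval_eop (fun j => g (y j)) (fun _ => 0)
        (fun j => (⟨(g (y j), 0), hgy j⟩ : E3)) (fun _ => rfl) (fun _ => rfl) s
      rw [e1, e2, hlin0, eval_rul_hom g hg y hyu]
      exact ⟨rfl, rfl⟩
    have hfin := hC E3 eop isKei_eop (cc 0 0) (fun j => (⟨(g (y j), 0), hgy j⟩ : E3))
      (hccol 0 0) hcg (hdeq 0) (by
        obtain ⟨e1, e2⟩ := hevg t
        apply E3.ext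
        · rw [e1, ← heq]
        · rw [e2]) (by
        intro i
        obtain ⟨e1, e2⟩ := hevg (S i)
        obtain ⟨f1, f2⟩ := hev 0 0 (S i)
        apply E3.ext
        · rw [e1, f1]
          have h0 : eval rul y (S i) ⬝ᵥ v = 0 := congrFun hv i
          simp only [g, h0]
          simp
        · rw [e2, f2, hbb0, hlin0])
    have horth : ∀ j < K₁.strands + K₂.strands, v ⬝ᵥ y j = 0 := by
      intro j hj
      have h1 : y j = g (y j) := congrArg (fun a : E3 => a.1.1) (hfin j hj)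
      have h2 : (2 * (y j ⬝ᵥ v) / (v ⬝ᵥ v)) • v = 0 := by
        have h3 : y j - (2 * (y j ⬝ᵥ v) / (v ⬝ᵥ v)) • v = y j := h1.symm
        exact sub_eq_self.1 h3
      rcases smul_eq_zero.1 h2 with h3 | h3
      · rw [div_eq_zero_iff] at h3
        rcases h3 with h3 | h3
        · rw [dotProduct_comm]
          linarith
        · exact absurd h3 hvv
      · exact absurd h3 hv0
    rcases hsp with h | h
    · exact hv0 (h v fun j hj => by rw [← hylt j hj]; exact horth j (by omega))
    · refine hv0 (hspz h v fun j hj => ?_)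
      have := horth (j + K₁.strands) (by omega)
      rw [hyge] at this
      rw [hz]
      exact this
  · -- the general case
    have hgen : ∀ s : V3, ψ s = 0 → ∃ l : V3, (∀ j < K₁.strands, s ⬝ᵥ x₁ j = l ⬝ᵥ x₁ j) ∧
        ∀ j < K₂.strands, l ⬝ᵥ z j = 0 := by
      intro s hs
      have hM : IsUnit M.det := isUnit_iff_ne_zero.2 hdet
      refine ⟨M⁻¹ *ᵥ (fun i => lin y (bb s 0) (S i)), ?_⟩
      set l : V3 := M⁻¹ *ᵥ (fun i => lin y (bb s 0) (S i)) with hl
      have hMl : M *ᵥ l = fun i => lin y (bb s 0) (S i) := by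
        rw [hl, Matrix.mulVec_mulVec, Matrix.mul_nonsing_inv _ hM, Matrix.one_mulVec]
      have hfin := hC E3 eop isKei_eop (cc s 0) (cc l l) (hccol s 0) (hccol l l) (hψeq s hs)
        (hdeq l) (by
          intro i
          obtain ⟨e1, e2⟩ := hev s 0 (S i)
          obtain ⟨f1, f2⟩ := hev l l (S i)
          apply E3.ext
          · rw [e1, f1]
          · rw [e2, f2, hdiag, lin_dot]
            have h0 : eval rul y (S i) ⬝ᵥ l = lin y (bb s 0) (S i) := congrFun hMl i
            rw [← h0, dotProduct_comm])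
      have hb : ∀ j < K₁.strands + K₂.strands, bb s 0 j = l ⬝ᵥ y j := by
        intro j hj
        have h1 : bb s 0 j = bb l l j := congrArg (fun a : E3 => a.1.2) (hfin j hj)
        rw [h1, hdiag]
      constructor
      · intro j hj
        have := hb j (by omega)
        simp only [bb] at this
        rw [if_pos hj, hylt j hj] at this
        exact this
      · intro j hj
        have := hb (j + K₁.strands) (by omega)
        simp only [bb] at this
        rw [if_neg (by omega), zero_dotProduct, hyge] at this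
        rw [hz]
        exact this.symm
    rcases hsp with h | h
    · obtain ⟨s, hs, hns⟩ := exists_ker ψ hψadd hψsmul (hzu 0) (hzu j₂) (by
        rw [hz]
        simp only
        rw [rul_dot hn]
        exact hn₂)
      obtain ⟨l, hl1, hl2⟩ := hgen s hs
      have hsl : s - l = 0 := by
        apply h
        intro j hj
        rw [sub_dotProduct, hl1 j hj, sub_self]
      have hsl' : s = l := sub_eq_zero.1 hsl
      subst hsl'
      exact hns ⟨hl2 0 hpos₂, hl2 j₂ hj₂⟩
    · obtain ⟨s, hs, hns⟩ := exists_ker ψ hψadd hψsmul (h₁ 0) (h₁ j₁) hn₁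
      obtain ⟨l, hl1, hl2⟩ := hgen s hs
      have hl0 : l = 0 := hspz h l hl2
      subst hl0
      apply hns
      constructor
      · rw [hl1 0 hpos₁, zero_dotProduct]
      · rw [hl1 j₁ hj₁, zero_dotProduct]

/-- The colours of a nonconstant colouring of a knot are not all parallel. -/
theorem not_parallel {D : Diagram} (hD : IsKnot D) {x : ℕ → V3} (hx : ∀ j, x j ⬝ᵥ x j = 1)
    (hc : IsCol rul D x) {j : ℕ} (hj : j < D.strands) (hne : x j ≠ x 0) :
    ∃ i < D.strands, (x 0 ⬝ᵥ x i) ^ 2 ≠ 1 := by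
  classical
  by_contra hcon
  push Not at hcon
  have hpm : ∀ i < D.strands, x i = x 0 ∨ x i = -x 0 := by
    intro i hi
    have hsq : (x 0 ⬝ᵥ x i - 1) * (x 0 ⬝ᵥ x i + 1) = 0 := by
      have := hcon i hi
      linear_combination this
    rcases mul_eq_zero.1 hsq with h | h
    · left
      have h : x 0 ⬝ᵥ x i = 1 := by linarith
      have h4 : (x i - x 0) ⬝ᵥ (x i - x 0) = 0 := by
        simp only [sub_dotProduct, dotProduct_sub, hx i, hx 0, h, dotProduct_comm (x i) (x 0)]
        ring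
      exact sub_eq_zero.1 (dotProduct_self_eq_zero.1 h4)
    · right
      have h : x 0 ⬝ᵥ x i = -1 := by linarith
      have h4 : (x i + x 0) ⬝ᵥ (x i + x 0) = 0 := by
        simp only [add_dotProduct, dotProduct_add, hx i, hx 0, h, dotProduct_comm (x i) (x 0)]
        ring
      exact eq_neg_of_add_eq_zero_left (dotProduct_self_eq_zero.1 h4)
  have hx0 : x 0 ≠ -x 0 := by
    intro h
    have h1 := hx 0
    have h2 : x 0 ⬝ᵥ -x 0 = x 0 ⬝ᵥ x 0 := by rw [← h]
    rw [dotProduct_neg] at h2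
    linarith
  let f : ℕ → ZMod 2 := fun i => if i < D.strands ∧ x i ≠ x 0 then 1 else 0
  let g : ZMod 2 → V3 := fun a => if a = 0 then x 0 else -x 0
  have hginj : Function.Injective g := by
    intro a b hab
    simp only [g] at hab
    split_ifs at hab with h1 h2 h2
    · rw [h1, h2]
    · exact absurd hab hx0
    · exact absurd hab.symm hx0
    · have : ∀ a b : ZMod 2, a ≠ 0 → b ≠ 0 → a = b := by decide
      exact this a b h1 h2
  have h2 : ∀ a b : ZMod 2, tak a b = b := by decide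
  have hghom : ∀ a b, g (tak a b) = rul (g a) (g b) := by
    intro a b
    rw [h2]
    simp only [g, rul]
    split_ifs <;> simp only [neg_dotProduct, dotProduct_neg, hx 0, neg_neg] <;> module
  have hgf : ∀ i < D.strands, g (f i) = x i := by
    intro i hi
    rcases hpm i hi with h | h
    · have h3 : f i = 0 := if_neg (fun h' => h'.2 h)
      rw [h3, h]
      exact if_pos rfl
    · have h3 : x i ≠ x 0 := by
        rw [h]
        exact hx0.symm
      have h4 : f i = 1 := if_pos ⟨hi, h3⟩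
      rw [h4, h]
      exact if_neg one_ne_zero
  have hcol : IsCol rul D (fun i => g (f i)) := isCol_change hc hgf
  have hcolf : IsCol tak D f := by
    have h1 := actWord_map (op := tak) (op' := rul) g hghom D.word f
    have h3 : actWord rul D.word (fun i => g (f i)) = fun i => g (f i) := hcol
    rw [h3] at h1
    change actWord tak D.word f = f
    funext i
    exact hginj (congrFun h1 i).symm
  refine not_foxColourable_two hD ⟨f, hcolf, j, hj, ?_⟩
  simp only [f]
  rw [if_pos ⟨hj, hne⟩, if_neg (fun h => h.2 rfl)]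
  exact one_ne_zero

/-- If the kei of a band sum of two knots with nonconstant colourings by half-turns is generated
by three elements, then both knots have nontrivial determinant. -/
theorem fox_of_threeGenerated {K K₁ K₂ : Diagram} (hb : IsBandSum K K₁ K₂)
    (h₁ : SphereColourable K₁) (h₂ : SphereColourable K₂)
    (hT : ∃ D, SameLink K D ∧ ThreeGenerated D) :
    (∃ n, n ≠ 0 ∧ FoxColourable n K₁) ∧ ∃ n, n ≠ 0 ∧ FoxColourable n K₂ := by
  obtain ⟨b₀, t, S, hb₀, ht, hC⟩ := exists_goodC hb hT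
  obtain ⟨x₁, hu₁, hc₁, j₁, hj₁, hn₁⟩ := h₁
  obtain ⟨x₂, hu₂, hc₂, j₂, hj₂, hn₂⟩ := h₂
  obtain ⟨i₁, hi₁, hp₁⟩ := not_parallel hb.knot₁ hu₁ hc₁ hj₁ hn₁
  obtain ⟨i₂, hi₂, hp₂⟩ := not_parallel hb.knot₂ hu₂ hc₂ hj₂ hn₂
  have hns : ¬ (Spatial K₁ x₁ ∨ Spatial K₂ x₂) := fun h =>
    core hb₀ ht hC hu₁ hu₂ hc₁ hc₂ hi₁ hi₂ hp₁ hp₂ h
  push Not at hns
  obtain ⟨s₁, s₂⟩ := hns
  simp only [Spatial] at s₁ s₂
  push Not at s₁ s₂
  obtain ⟨m₁, hm₁, hm₁'⟩ := s₁
  obtain ⟨m₂, hm₂, hm₂'⟩ := s₂
  exact ⟨fox_of_planar hu₁ hc₁ hm₁' hm₁ hj₁ hn₁, fox_of_planar hu₂ hc₂ hm₂' hm₂ hj₂ hn₂⟩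

/-- **Main theorem.** -/
theorem mainTB {K K₁ K₂ : Diagram} (hb : IsBandSum K K₁ K₂)
    (h₁ : SphereColourable K₁) (h₂ : SphereColourable K₂)
    (hT : ∃ D, SameLink K D ∧ ThreeGenerated D) : 2 ≤ unknottingNumber K := by
  obtain ⟨f₁, f₂⟩ := fox_of_threeGenerated hb h₁ h₂ hT
  exact main hb f₁ f₂

end Pool.Agent.Helper24.TB
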