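import Pool.Agent.Helper24.TB.Sph
import Pool.Agent.Helper24.TB.BU

/-!
# The matching of the two ends of the band
-/

set_option autoImplicit false

namespace Pool.Agent.Helper24.TB

open Matrix Pool.Agent.Helper20.BandSum
open scoped Quaternion

noncomputable section

/-- The quaternions. -/
abbrev HH := Quaternion ℝ

/-- The quaternion with given coordinates. -/
def mkQ (a b c d : ℝ) : HH := ⟨a, b, c, d⟩

@[simp] theorem mkQ_re (a b c d : ℝ) : (mkQ a b c d).re = a := rfl
@[simp] theorem mkQ_imI (a b c d : ℝ) : (mkQ a b c d).imI = b := rfl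
@[simp] theorem mkQ_imJ (a b c d : ℝ) : (mkQ a b c d).imJ = c := rfl
@[simp] theorem mkQ_imK (a b c d : ℝ) : (mkQ a b c d).imK = d := rfl

/-- A vector as an imaginary quaternion. -/
def io (v : V3) : HH := mkQ 0 (v 0) (v 1) (v 2)

theorem io_inj {v w : V3} (h : io v = io w) : v = w := by
  have h1 := congrArg QuaternionAlgebra.imI h
  have h2 := congrArg QuaternionAlgebra.imJ h
  have h3 := congrArg QuaternionAlgebra.imK h
  ext i
  fin_cases i
  · exact h1
  · exact h2
  · exact h3

theorem io_neg (v : V3) : io (-v) = -io v := by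
  ext <;> simp [io]

theorem continuous_io : Continuous io := by
  have h : io = fun v : V3 => v 0 • mkQ 0 1 0 0 + v 1 • mkQ 0 0 1 0 + v 2 • mkQ 0 0 0 1 := by
    funext v
    ext <;> simp [io]
  rw [h]
  fun_prop

theorem star_io (v : V3) : star (io v) = -io v := by
  ext <;> simp [io]

theorem io_sq {v : V3} (hv : v ⬝ᵥ v = 1) : io v * io v = -1 := by
  simp only [dotProduct, Fin.sum_univ_three] at hv
  ext <;> simp [io]
  · linarith
  all_goals ring

/-- The operation of the half-turns, in quaternions. -/
def qop (a b : HH) : HH := -(a * b * a)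

theorem io_rul {a : V3} (ha : a ⬝ᵥ a = 1) (b : V3) : io (rul a b) = qop (io a) (io b) := by
  have ha' := ha
  simp only [dotProduct, Fin.sum_univ_three] at ha'
  ext <;> simp [io, rul, qop, dotProduct, Fin.sum_univ_three]
  · ring
  · linear_combination b 0 * ha'
  · linear_combination b 1 * ha'
  · linear_combination b 2 * ha'

/-- The colours, with the second family turned by the half-turn about `n`. -/
def turn (k : ℕ) (x : ℕ → V3) (n : V3) (j : ℕ) : V3 := if j < k then x j else rul n (x j)

/-- The same in quaternions, as a polynomial in `n`. -/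
def qcol (k : ℕ) (x : ℕ → V3) (n : V3) (j : ℕ) : HH :=
  if j < k then io (x j) else -(io n * io (x j) * io n)

theorem qcol_neg (k : ℕ) (x : ℕ → V3) (n : V3) : qcol k x (-n) = qcol k x n := by
  funext j
  simp only [qcol, io_neg]
  split_ifs
  · rfl
  · rw [neg_mul, neg_mul, mul_neg, neg_neg]

theorem io_turn (k : ℕ) (x : ℕ → V3) {n : V3} (hn : n ⬝ᵥ n = 1) (j : ℕ) :
    io (turn k x n j) = qcol k x n j := by
  simp only [turn, qcol]
  split_ifs
  · rfl
  · rw [io_rul hn, qop]

theorem turn_unit (k : ℕ) (x : ℕ → V3) (hx : ∀ j, x j ⬝ᵥ x j = 1) {n : V3} (hn : n ⬝ᵥ n = 1)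
    (j : ℕ) : turn k x n j ⬝ᵥ turn k x n j = 1 := by
  simp only [turn]
  split_ifs
  · exact hx j
  · rw [rul_dot hn, hx j]

theorem eval_rul_unit (x : ℕ → V3) (hx : ∀ j, x j ⬝ᵥ x j = 1) (t : Tm) :
    eval rul x t ⬝ᵥ eval rul x t = 1 := by
  induction t with
  | var j => exact hx j
  | op s t ihs iht =>
    simp only [eval]
    rw [rul_dot ihs, iht]

theorem eval_qop (x : ℕ → V3) (hx : ∀ j, x j ⬝ᵥ x j = 1) (t : Tm) :
    io (eval rul x t) = eval qop (fun j => io (x j)) t := by
  induction t with
  | var j => rfl
  | op s t ihs iht =>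
    simp only [eval]
    rw [io_rul (eval_rul_unit x hx s), ihs, iht]

theorem continuous_evalq (k : ℕ) (x : ℕ → V3) (t : Tm) :
    Continuous fun n => eval qop (qcol k x n) t := by
  induction t with
  | var j =>
    simp only [eval, qcol]
    split_ifs
    · exact continuous_const
    · exact ((continuous_io.mul continuous_const).mul continuous_io).neg
  | op s t ihs iht =>
    simp only [eval, qop]
    exact ((ihs.mul iht).mul ihs).neg

/-- The product of the operators of a term. -/
def wd (c : ℕ → HH) : Tm → HH
  | .var _ => 1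
  | .op s t => eval qop c s * wd c t

theorem continuous_wd (k : ℕ) (x : ℕ → V3) (t : Tm) :
    Continuous fun n => wd (qcol k x n) t := by
  induction t with
  | var j => exact continuous_const
  | op s t ihs iht =>
    simp only [wd]
    exact (continuous_evalq k x s).mul iht

theorem wd_spec (x : ℕ → V3) (hx : ∀ j, x j ⬝ᵥ x j = 1) (t : Tm) :
    eval qop (fun j => io (x j)) t * wd (fun j => io (x j)) t =
      wd (fun j => io (x j)) t * io (x t.base) ∧
    star (wd (fun j => io (x j)) t) * wd (fun j => io (x j)) t = 1 := by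
  induction t with
  | var j => simp [eval, wd, Tm.base]
  | op s t ihs iht =>
    have hs : eval qop (fun j => io (x j)) s * eval qop (fun j => io (x j)) s = -1 := by
      rw [← eval_qop x hx, io_sq (eval_rul_unit x hx s)]
    have hs' : star (eval qop (fun j => io (x j)) s) = -eval qop (fun j => io (x j)) s := by
      rw [← eval_qop x hx, star_io]
    simp only [eval, wd, Tm.base, qop] at *
    generalize eval qop (fun j => io (x j)) s = a at *
    generalize eval qop (fun j => io (x j)) t = b at *
    generalize wd (fun j => io (x j)) t = w at *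
    obtain ⟨i1, i2⟩ := iht
    constructor
    · calc -(a * b * a) * (a * w) = -(a * b * (a * a) * w) := by noncomm_ring
        _ = a * (b * w) := by rw [hs]; noncomm_ring
        _ = a * w * io (x t.base) := by rw [i1]; noncomm_ring
    · rw [star_mul, hs']
      calc star w * -a * (a * w) = -(star w * (a * a) * w) := by noncomm_ring
        _ = star w * w := by rw [hs]; noncomm_ring
        _ = 1 := i2

/-- An element anticommuting with the two sides. -/
theorem exists_anti {p c : HH} (hp : p * p = -1) (hc : c * c = -1) :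
    ∃ z : HH, z ≠ 0 ∧ p * z = -(z * c) := by
  by_contra hcon
  push Not at hcon
  have h1 : ∀ y : HH, p * y = y * c := by
    intro y
    by_contra hy
    refine hcon (p * y - y * c) (sub_ne_zero.2 hy) ?_
    calc p * (p * y - y * c) = (p * p) * y - p * y * c := by noncomm_ring
      _ = -y - p * y * c := by rw [hp]; noncomm_ring
      _ = y * (c * c) - p * y * c := by rw [hc]; noncomm_ring
      _ = -((p * y - y * c) * c) := by noncomm_ring
  have h2 : p = c := by simpa using h1 1
  subst h2
  have hi := h1 (mkQ 0 1 0 0)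
  have hj := h1 (mkQ 0 0 1 0)
  have a1 := congrArg QuaternionAlgebra.imJ hi
  have a2 := congrArg QuaternionAlgebra.imK hi
  have a3 := congrArg QuaternionAlgebra.imK hj
  have a4 := congrArg QuaternionAlgebra.re hc
  simp at a1 a2 a3 a4
  nlinarith [sq_nonneg p.re, sq_nonneg p.imI, sq_nonneg p.imJ, sq_nonneg p.imK]

theorem eq_zero_of_comm {w c : HH} (hc : c * c = -1) (hs : star c = -c) (hw : w * c = c * w)
    (h1 : w.re = 0) (h2 : (w * c).re = 0) : w = 0 := by
  have e1 : star w = -w := by
    rw [Quaternion.star_eq_neg]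
    exact h1
  have e2 : star (w * c) = w * c := by
    rw [star_mul, hs, e1, neg_mul_neg, hw]
  have e3 : w * c = ((w * c).re : HH) := by
    rw [Quaternion.star_eq_self] at e2
    exact e2
  rw [h2, Quaternion.coe_zero] at e3
  have e4 : w * c * c = 0 := by rw [e3, zero_mul]
  rw [mul_assoc, hc] at e4
  simpa using e4

/-- **Matching.** There is a half-turn of the second family of colours such that the colours at
the two ends of the band agree. -/
theorem exists_turn (k : ℕ) (x : ℕ → V3) (hx : ∀ j, x j ⬝ᵥ x j = 1) (b₀ : ℕ) (t : Tm)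
    (hb : b₀ < k) (ht : ¬ t.base < k) :
    ∃ n : V3, n ⬝ᵥ n = 1 ∧ turn k x n b₀ = eval rul (turn k x n) t := by
  have hp2 := io_sq (hx b₀)
  have hc2 := io_sq (hx t.base)
  obtain ⟨z, hz, hzc⟩ := exists_anti hp2 hc2
  set p := io (x b₀) with hp
  set c := io (x t.base) with hc
  have hcs : star c = -c := star_io _
  let Q : V3 → HH := fun n => wd (qcol k x n) t * io n
  let Lf : V3 → HH := fun n => z⁻¹ * (p * Q n - Q n * c)
  let F : V3 → ℂ := fun n => ⟨(Lf n).re, (Lf n * c).re⟩
  have hQc : Continuous Q := (continuous_wd k x t).mul continuous_io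
  have hLc : Continuous Lf :=
    continuous_const.mul ((continuous_const.mul hQc).sub (hQc.mul continuous_const))
  have hFc : Continuous F := by
    have h1 : Continuous fun n => ((Lf n).re, (Lf n * c).re) :=
      (Quaternion.continuous_re.comp hLc).prodMk
        (Quaternion.continuous_re.comp (hLc.mul continuous_const))
    exact Complex.equivRealProdCLM.symm.continuous.comp h1
  have hQodd : ∀ n, Q (-n) = -Q n := by
    intro n
    simp only [Q, qcol_neg, io_neg, mul_neg]
  have hLodd : ∀ n, Lf (-n) = -Lf n := by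
    intro n
    simp only [Lf, hQodd]
    noncomm_ring
  have hFodd : ∀ n, F (-n) = -F n := by
    intro n
    simp only [F, hLodd]
    apply Complex.ext <;> simp
  obtain ⟨n, hn, hFn⟩ := borsukUlam F hFc hFodd
  refine ⟨n, hn, ?_⟩
  have hre : (Lf n).re = 0 := congrArg Complex.re hFn
  have him : (Lf n * c).re = 0 := congrArg Complex.im hFn
  -- the anticommutation
  have hanti : p * (p * Q n - Q n * c) = -((p * Q n - Q n * c) * c) := by
    calc p * (p * Q n - Q n * c) = (p * p) * Q n - p * Q n * c := by noncomm_ring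
      _ = -Q n - p * Q n * c := by rw [hp2]; noncomm_ring
      _ = Q n * (c * c) - p * Q n * c := by rw [hc2]; noncomm_ring
      _ = -((p * Q n - Q n * c) * c) := by noncomm_ring
  have hzi : c * z⁻¹ = -(z⁻¹ * p) := by
    have h1 : z * (c * z⁻¹) * z = z * (-(z⁻¹ * p)) * z := by
      have h2 : z * (c * z⁻¹) * z = z * c := by
        rw [mul_assoc, mul_assoc, inv_mul_cancel₀ hz, mul_one]
      have h3 : z * (-(z⁻¹ * p)) * z = -(p * z) := by
        rw [mul_neg, ← mul_assoc, mul_inv_cancel₀ hz, one_mul, neg_mul]
      rw [h2, h3, hzc, neg_neg]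
    exact mul_left_cancel₀ hz (mul_right_cancel₀ hz h1)
  have hcomm : Lf n * c = c * Lf n := by
    simp only [Lf]
    calc z⁻¹ * (p * Q n - Q n * c) * c = z⁻¹ * ((p * Q n - Q n * c) * c) := by noncomm_ring
      _ = z⁻¹ * (-(p * (p * Q n - Q n * c))) := by rw [hanti, neg_neg]
      _ = -(z⁻¹ * p) * (p * Q n - Q n * c) := by noncomm_ring
      _ = c * (z⁻¹ * (p * Q n - Q n * c)) := by rw [← hzi]; noncomm_ring
  have hL0 : Lf n = 0 := eq_zero_of_comm hc2 hcs hcomm hre him
  have hpQ : p * Q n = Q n * c := by
    have : p * Q n - Q n * c = 0 := by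
      rcases mul_eq_zero.1 hL0 with h | h
      · exact absurd (inv_eq_zero.1 h) hz
      · exact h
    exact sub_eq_zero.1 this
  -- conclusion
  have hxu := turn_unit k x hx hn
  have hfun : (fun j => io (turn k x n j)) = qcol k x n := funext fun j => io_turn k x hn j
  obtain ⟨s1, s2⟩ := wd_spec (turn k x n) hxu t
  rw [hfun] at s1 s2
  have hbase : io (turn k x n t.base) = -(io n * c * io n) := by
    rw [io_turn k x hn, qcol, if_neg ht]
  rw [hbase] at s1
  have hn2 := io_sq hn
  have hEQ : eval qop (qcol k x n) t * Q n = Q n * c := by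
    simp only [Q]
    calc eval qop (qcol k x n) t * (wd (qcol k x n) t * io n)
        = (eval qop (qcol k x n) t * wd (qcol k x n) t) * io n := by noncomm_ring
      _ = wd (qcol k x n) t * (-(io n * c * io n)) * io n := by rw [s1]
      _ = -(wd (qcol k x n) t * io n * c * (io n * io n)) := by noncomm_ring
      _ = wd (qcol k x n) t * io n * c := by rw [hn2]; noncomm_ring
  have hQ0 : Q n ≠ 0 := by
    simp only [Q]
    refine mul_ne_zero ?_ ?_
    · intro h
      rw [h, mul_zero] at s2
      exact zero_ne_one s2
    · intro h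
      rw [h, mul_zero] at hn2
      have := congrArg QuaternionAlgebra.re hn2
      simp at this
  have hfin : eval qop (qcol k x n) t = p :=
    mul_right_cancel₀ hQ0 (hEQ.trans hpQ.symm)
  apply io_inj
  rw [eval_qop _ hxu, hfun, hfin, io_turn k x hn, qcol, if_pos hb]

end

end Pool.Agent.Helper24.TB
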