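import Pool.Agent.Helper24.TB.Trans

/-!
# Colourings by half-turns, and their extension by a radical direction
-/

set_option autoImplicit false

namespace Pool.Agent.Helper24.TB

open Matrix Pool.Agent.Helper20.BandSum

/-- The vectors of the space. -/
abbrev V3 := Fin 3 → ℝ

/-- The image `2 ⟨a, b⟩ a - b` of `b` under the half-turn about the unit vector `a`. -/
def rul (a b : V3) : V3 := (2 * (a ⬝ᵥ b)) • a - b

theorem rul_dot {a : V3} (ha : a ⬝ᵥ a = 1) (b c : V3) : rul a b ⬝ᵥ rul a c = b ⬝ᵥ c := by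
  simp only [rul, sub_dotProduct, dotProduct_sub, smul_dotProduct, dotProduct_smul, smul_eq_mul,
    ha, dotProduct_comm b a]
  ring

theorem rul_dot_left (a b c : V3) : rul a b ⬝ᵥ c = b ⬝ᵥ rul a c := by
  simp only [rul, sub_dotProduct, dotProduct_sub, smul_dotProduct, dotProduct_smul, smul_eq_mul,
    dotProduct_comm b a]
  ring

theorem rul_rul {a : V3} (ha : a ⬝ᵥ a = 1) (b : V3) : rul a (rul a b) = b := by
  simp only [rul, dotProduct_sub, dotProduct_smul, smul_eq_mul, ha]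
  module

theorem rul_self {a : V3} (ha : a ⬝ᵥ a = 1) : rul a a = a := by
  simp only [rul, ha]
  module

theorem rul_dist {a b : V3} (ha : a ⬝ᵥ a = 1) (c : V3) :
    rul a (rul b c) = rul (rul a b) (rul a c) := by
  have h := rul_dot ha b c
  conv_rhs => rw [rul, h]
  simp only [rul, dotProduct_sub, dotProduct_smul, smul_eq_mul]
  module

/-- The unit sphere. -/
abbrev S2 : Type := {v : V3 // v ⬝ᵥ v = 1}

/-- The half-turn operation on the unit sphere. -/
def sop (a b : S2) : S2 := ⟨rul a.1 b.1, by rw [rul_dot a.2]; exact b.2⟩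

/-- The unit sphere times the line. -/
abbrev E3 : Type := {p : V3 × ℝ // p.1 ⬝ᵥ p.1 = 1}

/-- The reflections in the degenerate space `ℝ³ × ℝ`. -/
def eop (a b : E3) : E3 :=
  ⟨(rul a.1.1 b.1.1, 2 * (a.1.1 ⬝ᵥ b.1.1) * a.1.2 - b.1.2), by
    simp only
    rw [rul_dot a.2]
    exact b.2⟩

theorem eop_fst (a b : E3) : (eop a b).1.1 = rul a.1.1 b.1.1 := rfl

theorem eop_snd (a b : E3) : (eop a b).1.2 = 2 * (a.1.1 ⬝ᵥ b.1.1) * a.1.2 - b.1.2 := rfl

theorem E3.ext {a b : E3} (h1 : a.1.1 = b.1.1) (h2 : a.1.2 = b.1.2) : a = b :=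
  Subtype.ext (Prod.ext h1 h2)

theorem isKei_eop : IsKei eop where
  idem a := by
    apply E3.ext
    · rw [eop_fst, rul_self a.2]
    · rw [eop_snd, a.2]
      ring
  inv a b := by
    apply E3.ext
    · rw [eop_fst, eop_fst, rul_rul a.2]
    · rw [eop_snd, eop_snd, eop_fst]
      simp only [rul, dotProduct_sub, dotProduct_smul, smul_eq_mul, a.2]
      ring
  dist a b c := by
    apply E3.ext
    · simp only [eop_fst]
      exact rul_dist a.2 _
    · rw [eop_snd a, eop_snd (eop a b), eop_snd b, eop_snd a b, eop_snd a c, eop_fst, eop_fst,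
        eop_fst, rul_dot a.2]
      simp only [rul, dotProduct_sub, dotProduct_smul, smul_eq_mul]
      ring

theorem isCol_sop {D : Diagram} {x : ℕ → V3} (hx : ∀ j, x j ⬝ᵥ x j = 1) (h : IsCol rul D x) :
    IsCol sop D (fun j => (⟨x j, hx j⟩ : S2)) := by
  have h1 := actWord_map (op := sop) (op' := rul) (fun a : S2 => a.1) (fun _ _ => rfl) D.word
    (fun j => (⟨x j, hx j⟩ : S2))
  have h2 : actWord rul D.word x = x := h
  rw [h2] at h1
  change actWord sop D.word _ = _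
  funext j
  exact Subtype.ext (congrFun h1 j).symm

/-- Isometries act on colourings. -/
theorem isCol_iso {D : Diagram} {x : ℕ → V3} (hx : ∀ j, x j ⬝ᵥ x j = 1) (h : IsCol rul D x)
    (g : V3 → V3) (hg : ∀ v w, v ⬝ᵥ v = 1 → g (rul v w) = rul (g v) (g w)) :
    IsCol rul D (fun j => g (x j)) :=
  isCol_map (op := sop) (op' := rul) (fun a : S2 => g a.1) (fun a b => hg a.1 b.1 a.2)
    (isCol_sop hx h)

/-- The extended colouring with second coordinate `⟨u, x⟩`. -/
theorem isCol_ext {D : Diagram} {x : ℕ → V3} (hx : ∀ j, x j ⬝ᵥ x j = 1) (h : IsCol rul D x)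
    (u : V3) : IsCol eop D (fun j => (⟨(x j, u ⬝ᵥ x j), hx j⟩ : E3)) := by
  refine isCol_map (op := sop) (op' := eop) (fun a : S2 => (⟨(a.1, u ⬝ᵥ a.1), a.2⟩ : E3)) ?_
    (isCol_sop hx h)
  intro a b
  apply E3.ext
  · rfl
  · rw [eop_snd]
    simp only [sop, rul, dotProduct_sub, dotProduct_smul, smul_eq_mul]

/-- The second coordinate of the value of a term. -/
def lin (x : ℕ → V3) (b : ℕ → ℝ) : Tm → ℝ
  | .var j => b j
  | .op s t => 2 * (eval rul x s ⬝ᵥ eval rul x t) * lin x b s - lin x b t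

theorem eval_eop (x : ℕ → V3) (b : ℕ → ℝ) (c : ℕ → E3) (hc1 : ∀ j, (c j).1.1 = x j)
    (hc2 : ∀ j, (c j).1.2 = b j) (t : Tm) :
    (eval eop c t).1.1 = eval rul x t ∧ (eval eop c t).1.2 = lin x b t := by
  induction t with
  | var j => exact ⟨hc1 j, hc2 j⟩
  | op s t ihs iht =>
    simp only [eval, lin]
    rw [eop_fst, eop_snd, ihs.1, ihs.2, iht.1, iht.2]
    exact ⟨rfl, rfl⟩

theorem lin_add (x : ℕ → V3) (b b' : ℕ → ℝ) (t : Tm) :
    lin x (fun j => b j + b' j) t = lin x b t + lin x b' t := by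
  induction t with
  | var j => rfl
  | op s t ihs iht =>
    simp only [lin, ihs, iht]
    ring

theorem lin_smul (x : ℕ → V3) (r : ℝ) (b : ℕ → ℝ) (t : Tm) :
    lin x (fun j => r * b j) t = r * lin x b t := by
  induction t with
  | var j => rfl
  | op s t ihs iht =>
    simp only [lin, ihs, iht]
    ring

theorem lin_dot (x : ℕ → V3) (u : V3) (t : Tm) :
    lin x (fun j => u ⬝ᵥ x j) t = u ⬝ᵥ eval rul x t := by
  induction t with
  | var j => rfl
  | op s t ihs iht =>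
    simp only [lin, ihs, iht, eval, rul, dotProduct_sub, dotProduct_smul, smul_eq_mul]

/-- Two independent unit vectors and a linear form. -/
theorem exists_ker (ψ : V3 → ℝ) (hadd : ∀ v w, ψ (v + w) = ψ v + ψ w)
    (hsmul : ∀ (r : ℝ) v, ψ (r • v) = r * ψ v) {u₀ u₁ : V3} (h0 : u₀ ⬝ᵥ u₀ = 1)
    (h1 : u₁ ⬝ᵥ u₁ = 1) (h01 : (u₀ ⬝ᵥ u₁) ^ 2 ≠ 1) :
    ∃ s, ψ s = 0 ∧ ¬ (s ⬝ᵥ u₀ = 0 ∧ s ⬝ᵥ u₁ = 0) := by
  by_contra hcon
  push Not at hcon
  have key := hcon (ψ u₁ • u₀ + (-ψ u₀) • u₁) (by rw [hadd, hsmul, hsmul]; ring)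
  simp only [add_dotProduct, smul_dotProduct, smul_eq_mul, h0, h1, dotProduct_comm u₁ u₀] at key
  set d := u₀ ⬝ᵥ u₁
  obtain ⟨k1, k2⟩ := key
  have e1 : ψ u₁ * (1 - d ^ 2) = 0 := by linear_combination k1 - d * k2
  have e2 : ψ u₁ = 0 := by
    rcases mul_eq_zero.1 e1 with h | h
    · exact h
    · exact absurd (by linarith : d ^ 2 = 1) h01
  have e3 : ψ u₀ = 0 := by
    rw [e2] at k2
    linarith
  have := (hcon u₀ e3).1
  rw [h0] at this
  exact one_ne_zero this

end Pool.Agent.Helper24.TB
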