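import Pool.Agent.Helper20.BandSum.Assembly

/-!
# Transport of colourings which is injective on colourings
-/

set_option autoImplicit false

namespace Pool.Agent.Helper20.BandSum

/-- Transport of colourings by keis, given by terms, injective on colourings. -/
def TrI (D E : Diagram) : Prop :=
  ∃ τ : ℕ → Tm, ∀ (Q : Type) (op : Q → Q → Q), IsKei op →
    (∀ c : ℕ → Q, IsCol op D c → IsCol op E (fun j => eval op c (τ j))) ∧
    (∀ c c' : ℕ → Q, IsCol op D c → IsCol op D c' →
      (∀ j < E.strands, eval op c (τ j) = eval op c' (τ j)) → ∀ j < D.strands, c j = c' j)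

theorem TrI.refl (D : Diagram) : TrI D D :=
  ⟨Tm.var, fun _ _ _ => ⟨fun _ hc => hc, fun _ _ _ _ h => h⟩⟩

theorem TrI.trans {D E F : Diagram} (h1 : TrI D E) (h2 : TrI E F) : TrI D F := by
  obtain ⟨τ, hτ⟩ := h1
  obtain ⟨σ, hσ⟩ := h2
  refine ⟨fun j => (σ j).subst τ, fun Q op hop => ?_⟩
  obtain ⟨a1, a2⟩ := hτ Q op hop
  obtain ⟨b1, b2⟩ := hσ Q op hop
  simp only [eval_subst]
  exact ⟨fun c hc => b1 _ (a1 c hc),
    fun c c' hc hc' h => a2 c c' hc hc' (b2 _ _ (a1 c hc) (a1 c' hc') h)⟩

theorem TrI.of_act {D E : Diagram} (hs : D.strands = E.strands)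
    (h : ∀ (Q : Type) (op : Q → Q → Q), IsKei op → ∀ x : ℕ → Q,
      actWord op D.word x = actWord op E.word x) : TrI D E := by
  refine ⟨Tm.var, fun Q op hop => ⟨fun c hc => ?_, fun c c' _ _ h' => hs ▸ h'⟩⟩
  change actWord op E.word c = c
  rw [← h Q op hop]
  exact hc

theorem TrI.of_conj {D E : Diagram} (u v : List Letter) (hs : D.strands = E.strands)
    (hD : D.word = u ++ v) (hE : E.word = v ++ u) : TrI D E := by
  refine ⟨actWord Tm.op u Tm.var, fun Q op hop => ?_⟩
  have key : ∀ c : ℕ → Q, (fun j => eval op c (actWord Tm.op u Tm.var j)) = actWord op u c := by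
    intro c
    funext j
    rw [eval_actWord]
    rfl
  have hcv : ∀ c : ℕ → Q, IsCol op D c → actWord op v (actWord op u c) = c := by
    intro c hc
    rw [← actWord_append, ← hD]; exact hc
  refine ⟨fun c hc => ?_, fun c c' hc hc' h => ?_⟩
  · rw [key]
    change actWord op E.word _ = _
    rw [hE, actWord_append, hcv c hc]
  · have hv : ∀ l ∈ v, l.1 + 1 < E.strands := fun l hl => E.valid l (by rw [hE]; simp [hl])
    have h1 : ∀ j < E.strands, actWord op u c j = actWord op u c' j := by
      intro j hj
      have := h j hj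
      rwa [show eval op c (actWord Tm.op u Tm.var j) = actWord op u c j from congrFun (key c) j,
        show eval op c' (actWord Tm.op u Tm.var j) = actWord op u c' j from
          congrFun (key c') j] at this
    have h2 := actWord_congr (op := op) E.strands v hv _ _ h1
    rw [hcv c hc, hcv c' hc'] at h2
    intro j hj
    exact h2 j (hs ▸ hj)

private theorem stab_key {D E : Diagram} (b : Bool) (n : ℕ) (hn : E.strands = n + 1)
    (hD : D.word = E.word ++ [(E.strands - 1, b)]) {Q : Type} {op : Q → Q → Q} (hop : IsKei op)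
    (c : ℕ → Q) (hc : IsCol op D c) : IsCol op E c ∧ c (n + 1) = c n := by
  have hn' : E.strands - 1 = n := by omega
  have hc' : act op (n, b) (actWord op E.word c) = c := by
    have h1 : actWord op D.word c = c := hc
    rw [hD, actWord_append, hn'] at h1
    exact h1
  have hy : actWord op E.word c (n + 1) = c (n + 1) :=
    actWord_ge E.strands E.word E.valid c (n + 1) (by omega)
  have e1 := congrFun hc' n
  have e2 := congrFun hc' (n + 1)
  have e3 : ∀ j, j ≠ n → j ≠ n + 1 → actWord op E.word c j = c j := by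
    intro j h1 h2
    have := congrFun hc' j
    rwa [act_of_ne _ _ j h1 h2] at this
  have key : c n = c (n + 1) ∧ actWord op E.word c n = c (n + 1) := by
    cases b
    · rw [act_false, if_pos rfl, hy] at e1
      rw [act_false, if_neg (by omega), if_pos rfl, hy] at e2
      have h3 := hop.inv (c (n + 1)) (actWord op E.word c n)
      rw [e2, hop.idem] at h3
      exact ⟨e1.symm, h3.symm⟩
    · rw [act_true, if_pos rfl, hy] at e1
      rw [act_true, if_neg (by omega), if_pos rfl] at e2
      rw [e2, hop.idem] at e1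
      exact ⟨e1.symm, e2⟩
  refine ⟨?_, key.1.symm⟩
  change actWord op E.word c = c
  funext j
  by_cases h1 : j = n
  · rw [h1, key.2, key.1]
  · by_cases h2 : j = n + 1
    · rw [h2, hy]
    · exact e3 j h1 h2

theorem TrI.of_stab {D E : Diagram} (b : Bool) (hs : D.strands = E.strands + 1)
    (hD : D.word = E.word ++ [(E.strands - 1, b)]) : TrI D E := by
  have hpos := E.pos
  obtain ⟨n, hn⟩ : ∃ n, E.strands = n + 1 := ⟨E.strands - 1, by omega⟩
  refine ⟨Tm.var, fun Q op hop => ⟨fun c hc => (stab_key b n hn hD hop c hc).1,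
    fun c c' hc hc' h j hj => ?_⟩⟩
  rcases lt_or_ge j E.strands with h1 | h1
  · exact h j h1
  · have hj' : j = n + 1 := by omega
    rw [hj', (stab_key b n hn hD hop c hc).2, (stab_key b n hn hD hop c' hc').2]
    exact h n (by omega)

theorem TrI.of_stab' {D E : Diagram} (b : Bool) (hs : D.strands = E.strands + 1)
    (hD : D.word = E.word ++ [(E.strands - 1, b)]) : TrI E D := by
  have hpos := E.pos
  obtain ⟨n, hn⟩ : ∃ n, E.strands = n + 1 := ⟨E.strands - 1, by omega⟩
  have hn' : E.strands - 1 = n := by omega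
  refine ⟨fun j => if j = n + 1 then Tm.var n else Tm.var j, fun Q op hop => ?_⟩
  have hval : ∀ (c : ℕ → Q) (j : ℕ),
      eval op c (if j = n + 1 then Tm.var n else Tm.var j) = if j = n + 1 then c n else c j := by
    intro c j
    split_ifs <;> rfl
  refine ⟨fun c hc => ?_, fun c c' hc hc' h j hj => ?_⟩
  · obtain ⟨c', hc'⟩ : ∃ c' : ℕ → Q, c' = fun j => if j = n + 1 then c n else c j := ⟨_, rfl⟩
    have key : (fun j => eval op c (if j = n + 1 then Tm.var n else Tm.var j)) = c' := by
      rw [hc']
      funext j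
      exact hval c j
    have hlt : ∀ j < E.strands, c' j = c j := by
      intro j hj
      rw [hc']
      simp only
      rw [if_neg (by omega)]
    have h1 : actWord op E.word c' = c' := by
      funext j
      rcases lt_or_ge j E.strands with hj | hj
      · rw [actWord_congr E.strands E.word E.valid c' c hlt j hj, hlt j hj]
        exact congrFun hc j
      · exact actWord_ge E.strands E.word E.valid c' j hj
    rw [key]
    change actWord op D.word c' = c'
    rw [hD, actWord_append, h1, hn']
    apply act_eq_self hop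
    rw [hlt n (by omega), hc']
    simp
  · have h2 := h j (by omega)
    rw [hval, hval, if_neg (by omega), if_neg (by omega)] at h2
    exact h2

theorem TrI.of_step {D E : Diagram} (h : Step D E) : TrI D E ∧ TrI E D := by
  rcases h with ⟨u, v, i, b, hs, hD, hE⟩ | ⟨u, v, i, j, b, c, hij, hs, hD, hE⟩ |
    ⟨u, v, i, hs, hD, hE⟩ | ⟨u, v, hs, hD, hE⟩ | ⟨b, hs, hD⟩
  · have key : ∀ (Q : Type) (op : Q → Q → Q), IsKei op → ∀ x : ℕ → Q,
        actWord op D.word x = actWord op E.word x := by
      intro Q op hop x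
      rw [hD, hE, actWord_append, actWord_append, actWord_cons, actWord_cons, act_act_not hop]
    exact ⟨TrI.of_act hs key, TrI.of_act hs.symm fun Q op hop x => (key Q op hop x).symm⟩
  · have key : ∀ (Q : Type) (op : Q → Q → Q), IsKei op → ∀ x : ℕ → Q,
        actWord op D.word x = actWord op E.word x := by
      intro Q op _ x
      rw [hD, hE, actWord_append, actWord_append, actWord_cons, actWord_cons, actWord_cons,
        actWord_cons, act_comm i j b c hij]
    exact ⟨TrI.of_act hs key, TrI.of_act hs.symm fun Q op hop x => (key Q op hop x).symm⟩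
  · have key : ∀ (Q : Type) (op : Q → Q → Q), IsKei op → ∀ x : ℕ → Q,
        actWord op D.word x = actWord op E.word x := by
      intro Q op hop x
      rw [hD, hE, actWord_append, actWord_append]
      simp only [actWord_cons]
      rw [act_braid hop]
    exact ⟨TrI.of_act hs key, TrI.of_act hs.symm fun Q op hop x => (key Q op hop x).symm⟩
  · exact ⟨TrI.of_conj u v hs hD hE, TrI.of_conj v u hs.symm hE hD⟩
  · exact ⟨TrI.of_stab b hs hD, TrI.of_stab' b hs hD⟩

theorem TrI.of_sameLink {D E : Diagram} (h : SameLink D E) : TrI D E ∧ TrI E D := by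
  induction h with
  | rel _ _ h => exact TrI.of_step h
  | refl _ => exact ⟨TrI.refl _, TrI.refl _⟩
  | symm _ _ _ ih => exact ⟨ih.2, ih.1⟩
  | trans _ _ _ _ _ ih1 ih2 => exact ⟨ih1.1.trans ih2.1, ih2.2.trans ih1.2⟩

/-- The colourings of a band sum obtained from colourings of the split link. -/
theorem exists_band_terms {K K₁ K₂ : Diagram} (hb : IsBandSum K K₁ K₂) :
    ∃ (t₁ t₂ : Tm) (σ : ℕ → Tm), ∀ (Q : Type) (op : Q → Q → Q), IsKei op →
      (∀ c : ℕ → Q, IsCol op (split K₁ K₂) c → eval op c t₁ = eval op c t₂ →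
        IsCol op K (fun j => eval op c (σ j))) ∧
      (∀ c c' : ℕ → Q, IsCol op (split K₁ K₂) c → IsCol op (split K₁ K₂) c' →
        eval op c t₁ = eval op c t₂ → eval op c' t₁ = eval op c' t₂ →
        (∀ j < K.strands, eval op c (σ j) = eval op c' (σ j)) →
        ∀ j < (split K₁ K₂).strands, c j = c' j) := by
  obtain ⟨D, E, hD, ⟨u, v, i, b, hs, hDw, hEw⟩, hE⟩ := hb.band
  obtain ⟨τ, hτ⟩ := (TrI.of_sameLink hD).2
  obtain ⟨σ, hσ⟩ := (TrI.of_sameLink hE).1
  refine ⟨actWord Tm.op u τ i, actWord Tm.op u τ (i + 1), fun j => (σ j).subst τ,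
    fun Q op hop => ?_⟩
  obtain ⟨a1, a2⟩ := hτ Q op hop
  obtain ⟨b1, b2⟩ := hσ Q op hop
  have key : ∀ c : ℕ → Q, IsCol op (split K₁ K₂) c →
      eval op c (actWord Tm.op u τ i) = eval op c (actWord Tm.op u τ (i + 1)) →
      IsCol op E (fun j => eval op c (τ j)) := by
    intro c hc h1
    rw [eval_actWord, eval_actWord] at h1
    have a4 : actWord op D.word (fun j => eval op c (τ j)) = fun j => eval op c (τ j) := a1 c hc
    change actWord op E.word _ = _
    rw [hDw, actWord_append] at a4
    rw [hEw, actWord_append, actWord_cons, act_eq_self hop _ _ h1]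
    exact a4
  simp only [eval_subst]
  refine ⟨fun c hc h1 => b1 _ (key c hc h1), fun c c' hc hc' h1 h1' h j hj => ?_⟩
  refine a2 c c' hc hc' (fun k hk => ?_) j hj
  exact b2 _ _ (key c hc h1) (key c' hc' h1') h k (hs ▸ hk)

/-- The two ends of the band lie on different components. -/
theorem band_bases {K K₁ K₂ : Diagram} (hb : IsBandSum K K₁ K₂) {t₁ t₂ : Tm} {σ : ℕ → Tm}
    (h : ∀ (Q : Type) (op : Q → Q → Q), IsKei op →
      (∀ c : ℕ → Q, IsCol op (split K₁ K₂) c → eval op c t₁ = eval op c t₂ →
        IsCol op K (fun j => eval op c (σ j))) ∧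
      (∀ c c' : ℕ → Q, IsCol op (split K₁ K₂) c → IsCol op (split K₁ K₂) c' →
        eval op c t₁ = eval op c t₂ → eval op c' t₁ = eval op c' t₂ →
        (∀ j < K.strands, eval op c (σ j) = eval op c' (σ j)) →
        ∀ j < (split K₁ K₂).strands, c j = c' j)) :
    ¬ (t₁.base < K₁.strands ↔ t₂.base < K₁.strands) := by
  intro hiff
  have h2 : ∀ a b : ZMod 2, tak a b = b := by decide
  have htak : (tak : ZMod 2 → ZMod 2 → ZMod 2) = fun _ b => b := by
    funext a b
    exact h2 a b
  obtain ⟨c, hcd⟩ : ∃ c : ℕ → ZMod 2, c = fun j => if j < K₁.strands then (fun _ => 0) j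
    else (fun _ => 1) (j - K₁.strands) := ⟨_, rfl⟩
  have hc : IsCol tak (split K₁ K₂) c := by
    rw [hcd]
    exact isCol_split (isCol_const isKei_tak K₁ 0) (isCol_const isKei_tak K₂ 1)
  have he : eval tak c t₁ = eval tak c t₂ := by
    rw [htak, eval_trivial, eval_trivial, hcd]
    simp only [hiff]
  obtain ⟨h1, h2'⟩ := h (ZMod 2) tak isKei_tak
  have h3 := h1 c hc he
  -- the colouring of the knot is constant
  have hconst : ∀ j < K.strands, eval tak c (σ j) = eval tak c (σ 0) := by
    intro j hj
    by_contra hne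
    exact not_foxColourable_two hb.knot ⟨_, h3, j, hj, hne⟩
  -- compare with the constant colouring
  have hd : IsCol tak (split K₁ K₂) (fun _ => eval tak c (σ 0)) := isCol_const isKei_tak _ _
  have hd1 : ∀ t : Tm, eval tak (fun _ => eval tak c (σ 0)) t = eval tak c (σ 0) := by
    intro t
    rw [htak, eval_trivial]
  have h4 := h2' c _ hc hd he (by rw [hd1, hd1]) (fun j hj => by rw [hd1]; exact hconst j hj)
  have e1 := h4 0 (split K₁ K₂).pos
  have e2 := h4 K₁.strands (by
    have := K₂.pos
    simp only [split]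
    omega)
  have e3 : c 0 = c K₁.strands := e1.trans e2.symm
  rw [hcd] at e3
  simp only [K₁.pos, if_true, lt_self_iff_false, if_false] at e3
  exact absurd e3 (by decide)

end Pool.Agent.Helper20.BandSum
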